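import Pool.Agent.Helper65.LT.Pc

/-!
PROJECT LT (MP_274814), block F4-F6, piece P16b: `exists_Ph`.
-/

namespace Pool.Agent.Helper31.LT

open Pool.Agent.Helper34.LT Pool.Agent.Helper65.LT Finset Complex Filter Topology

noncomputable section

theorem P16b_summable {q : ℕ} (F : Fin q × ℕ → ℝ) (h0 : ∀ x, 0 ≤ F x)
    (h : ∀ k, Summable fun e => F (k, e)) : Summable F := by
  rw [summable_prod_of_nonneg h0]
  exact ⟨h, (hasSum_fintype _).summable⟩

theorem P16b_Nk_le (q a b k : ℕ) (hq : 0 < q) : Nk q a b k ≤ 2 * q := by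
  unfold Nk
  have h1 := Nat.mod_lt (k * a) hq
  have h2 := Nat.mod_lt (k * b) hq
  omega

theorem P16b_hasSum {q : ℕ} (c : ℕ → ℕ → ℂ) (e w : ℕ → ℂ) (X : ℂ)
    (hc1 : ∀ k, ∀ r : ℝ, 0 ≤ r → Summable fun j => ‖c k j‖ * r ^ j)
    (hc2 : ∀ k, HasSum (fun j => c k j * X ^ j) (e k)) :
    HasSum (fun x : Fin q × ℕ => c x.1 x.2 * (X ^ x.2 * w x.1)) (∑ k ∈ range q, e k * w k) := by
  have h1 : Summable (fun x : Fin q × ℕ => c x.1 x.2 * (X ^ x.2 * w x.1)) := by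
    refine Summable.of_norm ?_
    refine P16b_summable _ (fun x => norm_nonneg _) fun k => ?_
    have h2 := (hc1 k ‖X‖ (norm_nonneg _)).mul_right ‖w k‖
    refine h2.congr fun j => ?_
    rw [norm_mul, norm_mul, norm_pow]
    ring
  have h3 : ∀ k : Fin q, HasSum (fun j => c k j * (X ^ j * w k)) (e k * w k) := by
    intro k
    have h4 := (hc2 k).mul_right (w k)
    refine h4.congr_fun fun j => ?_
    ring
  have h5 := h1.hasSum.prod_fiberwise h3
  have h6 := h5.unique (hasSum_fintype _)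
  rw [Finset.sum_range, ← h6]
  exact h1.hasSum

/-- the statement from its four inputs (no assumption on `q` except `0 < q`) -/
theorem P16b_main {q a b : ℕ} (hq : 0 < q) (f : ℕ ≃ Fin q × ℕ)
    (hf : ∀ i, cls q a b (nn q a b i) = (f i).1 ∧ nn q a b i = Nk q a b (f i).1 + q * (f i).2)
    (hle : ∀ i, i ≤ nn q a b i)
    (hww : ∀ (i : ℕ) (s : ℂ), s ≠ 0 → ‖s‖ < 1 → ww q a b (nn q a b i) s =
      (s ^ (-(q : ℤ))) ^ ((nn q a b i - Nk q a b (cls q a b (nn q a b i))) / q) *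
        w0 q a b (cls q a b (nn q a b i)) s)
    (E : ℕ → ℂ → ℂ) (hE : ∀ k, Differentiable ℂ (E k)) :
    ∃ p : ℕ → ℂ, (Summable fun i => ‖p i‖ * (2:ℝ) ^ i) ∧ ∀ s : ℂ, s ≠ 0 → ‖s‖ < 1 →
      HasSum (fun i => p i * ww q a b (nn q a b i) s)
        (∑ k ∈ range q, E k (s ^ (-(q : ℤ))) * w0 q a b k s) := by
  choose c hc1 hc2 using fun k => taylor_entire (hE k)
  refine ⟨fun i => c (f i).1 (f i).2, ?_, ?_⟩
  · have h1 : Summable (fun x : Fin q × ℕ =>
        ‖c x.1 x.2‖ * ((2:ℝ) ^ (2 * q) * ((2:ℝ) ^ q) ^ x.2)) := by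
      refine P16b_summable _ (fun x => by positivity) fun k => ?_
      have h2 := (hc1 k ((2:ℝ) ^ q) (by positivity)).mul_left ((2:ℝ) ^ (2 * q))
      refine h2.congr fun e => ?_
      ring
    have h2 := (f.summable_iff).2 h1
    refine Summable.of_nonneg_of_le (fun i => by positivity) (fun i => ?_) h2
    show ‖c (f i).1 (f i).2‖ * (2:ℝ) ^ i ≤
      ‖c (f i).1 (f i).2‖ * ((2:ℝ) ^ (2 * q) * ((2:ℝ) ^ q) ^ ((f i).2 : ℕ))
    refine mul_le_mul_of_nonneg_left ?_ (norm_nonneg _)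
    rw [← pow_mul, ← pow_add]
    refine pow_le_pow_right₀ (by norm_num) ?_
    have h3 := hle i
    rw [(hf i).2] at h3
    exact h3.trans (Nat.add_le_add_right (P16b_Nk_le q a b _ hq) _)
  · intro s h0 h1
    have h2 := P16b_hasSum (q := q) c (fun k => E k (s ^ (-(q : ℤ)))) (fun k => w0 q a b k s)
      (s ^ (-(q : ℤ))) hc1 (fun k => hc2 k _)
    have h3 := (f.hasSum_iff).2 h2
    refine h3.congr_fun fun i => ?_
    show c (f i).1 (f i).2 * ww q a b (nn q a b i) s =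
      c (f i).1 (f i).2 * ((s ^ (-(q : ℤ))) ^ ((f i).2 : ℕ) * w0 q a b (f i).1 s)
    have h4 := hww i s h0 h1
    rw [(hf i).1] at h4
    have h5 : (nn q a b i - Nk q a b (f i).1) / q = (f i).2 := by
      rw [(hf i).2, Nat.add_sub_cancel_left, Nat.mul_div_cancel_left _ hq]
    rw [h5] at h4
    rw [h4]

theorem exists_Ph' {q a b : ℕ} (hq : q.Prime) (hab : ¬ q ∣ a + b) (E : ℕ → ℂ → ℂ)
    (hE : ∀ k, Differentiable ℂ (E k)) :
    ∃ p : ℕ → ℂ, (Summable fun i => ‖p i‖ * (2:ℝ) ^ i) ∧ ∀ s : ℂ, s ≠ 0 → ‖s‖ < 1 →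
      HasSum (fun i => p i * ww q a b (nn q a b i) s)
        (∑ k ∈ range q, E k (s ^ (-(q : ℤ))) * w0 q a b k s) := by
  obtain ⟨f, hf⟩ := exists_idx hq hab
  exact P16b_main hq.pos f hf (le_nn hq hab) (fun i s h0 h1 => ww_sg hq hab (nn_sg hq hab i) h0 h1)
    E hE

end

end Pool.Agent.Helper31.LT
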